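import Pool.Agent.Lib.MP_97f6bf_co.Tree
import Pool.Agent.Lib.MP_97f6bf_co.Cycles
import Pool.Agent.Lib.MP_97f6bf_co.Caterpillar

set_option autoImplicit false

namespace Pool.Agent.Results.MP_97f6bf_co.UnboundedIntertwines

open Set Function

/-- `M` and `N` are isomorphic: a bijection of the ground sets preserves independence in both
directions. -/
def Iso {α β : Type} (M : Matroid α) (N : Matroid β) : Prop :=
  ∃ e : ↥M.E ≃ ↥N.E, ∀ I : Set ↥M.E,
    M.Indep (Subtype.val '' I) ↔ N.Indep (Subtype.val '' (e '' I))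

/-- `N` is, up to isomorphism, a minor of `M`. -/
def HasMinor {α β : Type} (M : Matroid α) (N : Matroid β) : Prop :=
  ∃ M' : Matroid α, M'.IsMinor M ∧ Iso M' N

/-- `M` is an intertwine of `N₁` and `N₂`. -/
def IsIntertwine {α β₁ β₂ : Type} (M : Matroid α) (N₁ : Matroid β₁) (N₂ : Matroid β₂) : Prop :=
  HasMinor M N₁ ∧ HasMinor M N₂ ∧
    ∀ M' : Matroid α, M'.IsMinor M → M' ≠ M → ¬ (HasMinor M' N₁ ∧ HasMinor M' N₂)

/-- `M` has a `U_{k,2k}`-minor: a minor with `2k` elements whose bases are the `k`-subsets. -/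
def HasUniformMinor {α : Type} (k : ℕ) (M : Matroid α) : Prop :=
  ∃ N : Matroid α, N.IsMinor M ∧ N.E.ncard = 2 * k ∧ ∀ B ⊆ N.E, N.IsBase B ↔ B.ncard = k

/-- `λ_M(X) = r(X) + r(E - X) - r(E) + 1`. -/
noncomputable def lam {α : Type} (M : Matroid α) (X : Set α) : ℤ :=
  ((M.eRk X).toNat : ℤ) + ((M.eRk (M.E \ X)).toNat : ℤ) - ((M.eRk M.E).toNat : ℤ) + 1

/-- A branch-decomposition of `M`: a finite tree with all degrees `1` or `3` and a bijection from
the ground set to the leaves. -/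
structure BranchDec {α : Type} (M : Matroid α) where
  V : Type
  fin : Finite V
  T : SimpleGraph V
  tree : T.IsTree
  deg : ∀ v, (T.neighborSet v).ncard = 1 ∨ (T.neighborSet v).ncard = 3
  leaf : ↥M.E ≃ {v : V // (T.neighborSet v).ncard = 1}

/-- The elements whose leaves lie on the side of `u` when the edge `uv` is deleted. -/
def BranchDec.part {α : Type} {M : Matroid α} (D : BranchDec M) (u v : D.V) : Set α :=
  {x | ∃ h : x ∈ M.E, (D.T.deleteEdges {s(u, v)}).Reachable u (D.leaf ⟨x, h⟩).1}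

/-- The branch-width of `M` is at most `w`. -/
def BranchWidthLE {α : Type} (M : Matroid α) (w : ℕ) : Prop :=
  ∃ D : BranchDec M, ∀ u v, D.T.Adj u v → lam M (D.part u v) ≤ w

/-- The ten elements `(i, c)`, `i ∈ ℤ/5`, are the edges of a 5-cycle with doubled edges, `(i, c)`
joining `i` and `i + 1`. -/
def Meets (v : Fin 5) (e : Fin 5 × Bool) : Prop := e.1 = v ∨ e.1 + 1 = v

/-- The bases of the rank 5 matroid on the ten edges with parameters `b` and `S`: the sets of five
edges which can be matched to the five vertices, except the two 5-cycles `{(i, b)}` and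
`{(i, b) : i ∉ S} ∪ {(i, not b) : i ∈ S}`. -/
def IsBaseOf (b : Bool) (S : Finset (Fin 5)) (B : Set (Fin 5 × Bool)) : Prop :=
  (∃ φ : Fin 5 → Fin 5 × Bool, Injective φ ∧ (∀ v, Meets v (φ v)) ∧ range φ = B) ∧
    B ≠ {e | e.2 = b} ∧ B ≠ {e | e.2 = if e.1 ∈ S then !b else b}

open Pool.Agent.MP97f6bf

lemma isBaseOf_iff (b : Bool) (B : Set (Fin 5 × Bool)) :
    (MM (D5 b)).IsBase B ↔ IsBaseOf b (sw b) B := by
  rw [MM_isBase]
  unfold IsBaseOf
  refine and_congr Iff.rfl ?_
  constructor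
  · intro h
    refine ⟨?_, ?_⟩
    · have := h (c5 b ∅) (Or.inl rfl)
      simpa [cyc, c5] using this
    · have := h (c5 b (sw b)) (Or.inr rfl)
      simpa [cyc, c5] using this
  · rintro ⟨h1, h2⟩ c (rfl | rfl)
    · simpa [cyc, c5] using h1
    · simpa [cyc, c5] using h2

lemma uniform_indep {α : Type} {N : Matroid α} {k : ℕ} (hk : 4 ≤ k) (hc : N.E.ncard = 2 * k)
    (hB : ∀ B ⊆ N.E, N.IsBase B ↔ B.ncard = k) {I : Set α} (hI : I ⊆ N.E) :
    N.Indep I ↔ I.ncard ≤ k := by
  have hfin : N.E.Finite := Set.finite_of_ncard_pos (by omega)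
  constructor
  · intro h
    obtain ⟨B, hBb, hIB⟩ := h.exists_isBase_superset
    have := (hB B hBb.subset_ground).1 hBb
    rw [← this]
    exact Set.ncard_le_ncard hIB (hfin.subset hBb.subset_ground)
  · intro h
    obtain ⟨B, hIB, hBE, hBc⟩ := Set.exists_subsuperset_card_eq hI h (by omega)
    exact ((hB B hBE).2 hBc).indep.subset hIB

lemma uniform_minor {α : Type} {M : Matroid α} {k : ℕ} (hk : 4 ≤ k) (h : HasUniformMinor k M) :
    ∃ N : Matroid α, N.IsMinor M ∧ N.E.ncard = 2 * 4 ∧ ∀ I ⊆ N.E, N.Indep I ↔ I.ncard ≤ 4 := by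
  obtain ⟨N, hN, hc, hB⟩ := h
  have hfin : N.E.Finite := Set.finite_of_ncard_pos (by omega)
  obtain ⟨C, hCE, hC⟩ := Set.exists_subset_card_eq (s := N.E) (n := k - 4) (by omega)
  have h1 : (N.E \ C).ncard = k + 4 := by
    have := Set.ncard_sdiff_add_ncard_of_subset hCE hfin
    omega
  obtain ⟨D, hDE, hD⟩ := Set.exists_subset_card_eq (s := N.E \ C) (n := k - 4) (by omega)
  have h2 : ((N.E \ C) \ D).ncard = 8 := by
    have := Set.ncard_sdiff_add_ncard_of_subset hDE (hfin.subset sdiff_subset)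
    omega
  have hCi : N.Indep C := (uniform_indep hk hc hB hCE).2 (by omega)
  refine ⟨(N.contract C).delete D, ?_, ?_, ?_⟩
  · exact (Matroid.contract_delete_isMinor N C D).trans hN
  · rw [Matroid.delete_ground, Matroid.contract_ground, h2]
  · intro I hI
    rw [Matroid.delete_ground, Matroid.contract_ground] at hI
    have hIC : Disjoint I C := by
      rw [Set.disjoint_left]; intro x hx hxC; exact (hI hx).1.2 hxC
    have hID : Disjoint I D := by
      rw [Set.disjoint_left]; intro x hx hxD; exact (hI hx).2 hxD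
    have hIE : I ⊆ N.E := fun x hx => (hI hx).1.1
    rw [Matroid.delete_indep_iff, hCi.contract_indep_iff]
    have h3 : (I ∪ C).ncard = I.ncard + (k - 4) := by
      rw [Set.ncard_union_eq hIC (hfin.subset hIE) (hfin.subset hCE), hC]
    rw [uniform_indep hk hc hB (Set.union_subset hIE hCE), h3]
    constructor
    · rintro ⟨⟨-, h⟩, -⟩; omega
    · intro h; exact ⟨⟨hIC, by omega⟩, hID⟩

lemma lam_le {α : Type} {M : Matroid α} [M.Finite] {X : Set α} {n : ℕ}
    (h : lam M X ≤ ((n + 1 : ℕ) : ℤ)) :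
    M.eRk X + M.eRk (M.E \ X) ≤ M.eRank + (n : ℕ∞) := by
  unfold lam at h
  have h1 : M.eRk X = ((M.eRk X).toNat : ℕ∞) :=
    (ENat.natCast_toNat (M.isRkFinite_set X).eRk_lt_top.ne).symm
  have h2 : M.eRk (M.E \ X) = ((M.eRk (M.E \ X)).toNat : ℕ∞) :=
    (ENat.natCast_toNat (M.isRkFinite_set _).eRk_lt_top.ne).symm
  have h3 : M.eRank = ((M.eRk M.E).toNat : ℕ∞) := by
    rw [Matroid.eRank_def]
    exact (ENat.natCast_toNat (M.isRkFinite_set _).eRk_lt_top.ne).symm
  rw [h1, h2, h3]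
  norm_cast
  push_cast at h
  omega

lemma nonempty_branchDec {α : Type} {M : Matroid α} (hM : M.Finite) (h : 2 ≤ M.E.ncard) :
    Nonempty (BranchDec M) := by
  have h1 : 1 ≤ M.E.ncard - 1 := by omega
  have hf : Finite ↥M.E := hM.ground_finite
  have hc : Nat.card ↥M.E = Nat.card {v : Fin (2 * (M.E.ncard - 1)) //
      ((Cat.cat (M.E.ncard - 1)).neighborSet v).ncard = 1} := by
    rw [Cat.cat_card h1, Nat.card_coe_set_eq]
    omega
  exact ⟨⟨Fin (2 * (M.E.ncard - 1)), inferInstance, Cat.cat (M.E.ncard - 1), Cat.cat_tree h1,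
    Cat.cat_deg h1, (Finite.equivFin _).trans ((finCongr hc).trans (Finite.equivFin _).symm)⟩⟩

lemma ten_le {α : Type} {M : Matroid α} (hM : M.Finite) (h : HasMinor M (MM (D5 false))) :
    10 ≤ M.E.ncard := by
  obtain ⟨N, hN, e, -⟩ := h
  have h1 : Nat.card ↥N.E = Nat.card ↥(MM (D5 false)).E := Nat.card_congr e
  rw [Nat.card_coe_set_eq, Nat.card_coe_set_eq, MM_E, Set.ncard_univ] at h1
  have h2 : Nat.card (Fin 5 × Bool) = 10 := by simp
  rw [← h2, ← h1]
  exact Set.ncard_le_ncard hN.subset hM.ground_finite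

open Classical in
theorem main (n : ℕ) : ∃ (α : Type) (M : Matroid α), M.Finite ∧
    M.E.ncard ≤ 2 * (3 * n + 90) ^ 2 + 12 ∧
    IsIntertwine M (MM (D5 false)) (MM (D5 true)) ∧ (∀ k, 4 ≤ k → ¬ HasUniformMinor k M) ∧
    Nonempty (BranchDec M) ∧ ¬ BranchWidthLE M (n + 1) := by
  set k := 3 * (n + 28) + 5 with hk
  set H := grid k with hH
  have hex : ∃ m : ℕ, ∃ M' : Matroid (VV (k + 1) × Bool), M'.IsMinor (MM H.G.data) ∧
      (∀ b, Big.HasMinor b M') ∧ M'.E.ncard = m :=
    ⟨_, MM H.G.data, Matroid.IsMinor.refl, fun b => H.G.hasMinor b, rfl⟩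
  obtain ⟨M', hM', hboth, hcard⟩ := Nat.find_spec hex
  have hmin := fun m (hm : m < Nat.find hex) => Nat.find_min hex hm
  have hfin : ∀ S : Set (VV (k + 1) × Bool), S.Finite := fun S => Set.toFinite S
  have hM : ∀ B, (MM H.G.data).IsBase B → IsTr H.G.data.σ B :=
    fun B hB => ((MM_isBase _ B).1 hB).1
  have hMf : M'.Finite := ⟨hfin _⟩
  refine ⟨VV (k + 1) × Bool, M', hMf, ?_, ⟨hboth false, hboth true, ?_⟩, ?_,
    nonempty_branchDec hMf ((by norm_num : 2 ≤ 10).trans (ten_le hMf (hboth false))), ?_⟩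
  · have h1 : M'.E.ncard ≤ (Set.univ : Set (VV (k + 1) × Bool)).ncard :=
      Set.ncard_le_ncard (Set.subset_univ _) (hfin _)
    rw [Set.ncard_univ] at h1
    have h2 : Nat.card (VV (k + 1) × Bool) = (6 + (k + 1) * (k + 1)) * 2 := by
      simp [VV]
    rw [h2] at h1
    have h3 : k + 1 = 3 * n + 90 := by omega
    have h4 : (6 + (k + 1) * (k + 1)) * 2 = 2 * (3 * n + 90) ^ 2 + 12 := by rw [h3]; ring
    exact h1.trans h4.le
  · rintro M'' hM'' hne ⟨h1, h2⟩
    have hsub : M''.E ⊂ M'.E := by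
      refine hM''.subset.ssubset_of_ne ?_
      intro hE
      exact hne (hM''.eq_of_ground_subset hE.symm.subset).symm
    have hlt : M''.E.ncard < Nat.find hex := by
      rw [← hcard]
      exact Set.ncard_lt_ncard hsub (hfin _)
    refine hmin _ hlt ⟨M'', hM''.trans hM', ?_, rfl⟩
    intro b
    cases b
    · exact h1
    · exact h2
  · intro j hj hu
    obtain ⟨N, hN, hc, hI⟩ := uniform_minor hj hu
    exact no_uniform hM (hN.trans hM') hc hI
  · rintro ⟨D, hD⟩
    have hdeg : ∀ v, (D.T.neighborSet v).ncard = 1 ↔ (D.T.neighborSet v).ncard ≤ 1 := by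
      intro v
      rcases D.deg v with h | h <;> omega
    let f : ↥M'.E ≃ {v : D.V // (D.T.neighborSet v).ncard ≤ 1} :=
      D.leaf.trans (Equiv.subtypeEquivRight hdeg)
    refine H.tree_contra n hk hM' (H.G.outer_subset hM' hboth) D.fin D.T D.tree.isAcyclic
      D.tree.connected.preconnected (fun v => by rcases D.deg v with h | h <;> omega) f ?_
    intro u v huv
    exact lam_le (hD u v huv)

/-- There are two matroids `N₁`, `N₂` of rank 5 on ten elements such that for every `n` there is an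
intertwine `M` of `N₁` and `N₂` with at most `2 (3 n + 90) ^ 2 + 12` elements, without
`U_{k,2k}`-minor for every `k ≥ 4`, which has branch-decompositions, all of width larger than
`n + 1`. -/
theorem result : ∃ N₁ N₂ : Matroid (Fin 5 × Bool), N₁.E = Set.univ ∧ N₂.E = Set.univ ∧
    (∀ B, N₁.IsBase B ↔ IsBaseOf false {0, 1} B) ∧
    (∀ B, N₂.IsBase B ↔ IsBaseOf true {0, 1, 2} B) ∧
    ∀ n : ℕ, ∃ (α : Type) (M : Matroid α), M.Finite ∧
      M.E.ncard ≤ 2 * (3 * n + 90) ^ 2 + 12 ∧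
      IsIntertwine M N₁ N₂ ∧ (∀ k, 4 ≤ k → ¬ HasUniformMinor k M) ∧
      Nonempty (BranchDec M) ∧ ¬ BranchWidthLE M (n + 1) :=
  ⟨MM (D5 false), MM (D5 true), rfl, rfl, isBaseOf_iff false, isBaseOf_iff true, main⟩

end Pool.Agent.Results.MP_97f6bf_co.UnboundedIntertwines
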